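import Pool.Agent.W792.LL.Stm

/-!
# Project LL: basic facts on `Zf`
-/

set_option autoImplicit false

namespace Pool.Agent.W762.LL

open Pool.Agent.W792.LL

section gen

variable {H : Type} [NormedAddCommGroup H] [InnerProductSpace ℂ H] [CompleteSpace H]

theorem inv_norm (A : H →L[ℂ] H) (q : ℝ) (hq1 : q < 1) (hA : ‖A‖ ≤ q) :
    IsUnit (1 - A) ∧ ‖Ring.inverse (1 - A)‖ ≤ 1 / (1 - q) := by
  have hu : IsUnit (1 - A) := isUnit_one_sub_of_norm_lt_one (lt_of_le_of_lt hA hq1)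
  refine ⟨hu, ?_⟩
  set Z := Ring.inverse (1 - A)
  have h1 : (1 - A) * Z = 1 := Ring.mul_inverse_cancel _ hu
  have h2 : Z = 1 + A * Z := by
    rw [sub_mul, one_mul] at h1
    exact eq_add_of_sub_eq h1
  have h3 : ‖Z‖ ≤ 1 + q * ‖Z‖ := by
    calc ‖Z‖ = ‖1 + A * Z‖ := by rw [← h2]
      _ ≤ ‖(1 : H →L[ℂ] H)‖ + ‖A * Z‖ := norm_add_le _ _
      _ ≤ 1 + q * ‖Z‖ := by
        refine add_le_add ContinuousLinearMap.norm_id_le ((norm_mul_le _ _).trans ?_)
        exact mul_le_mul_of_nonneg_right hA (norm_nonneg _)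
  rw [le_div_iff₀ (by linarith)]
  linarith

theorem rem_norm (A : H →L[ℂ] H) (q : ℝ) (hq0 : 0 ≤ q) (hq1 : q < 1) (hA : ‖A‖ ≤ q) (n : ℕ) :
    ‖Ring.inverse (1 - A) - ∑ i ∈ Finset.range (n + 1), A ^ i‖ ≤ q ^ (n + 1) / (1 - q) := by
  obtain ⟨hu, hn⟩ := inv_norm A q hq1 hA
  have h1 : Ring.inverse (1 - A) * (1 - A) = 1 := Ring.inverse_mul_cancel _ hu
  have h2 : Ring.inverse (1 - A) - ∑ i ∈ Finset.range (n + 1), A ^ i =
      Ring.inverse (1 - A) * A ^ (n + 1) := by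
    have h3 : Ring.inverse (1 - A) * ((1 - A) * ∑ i ∈ Finset.range (n + 1), A ^ i) =
        ∑ i ∈ Finset.range (n + 1), A ^ i := by rw [← mul_assoc, h1, one_mul]
    rw [mul_neg_geom_sum, mul_sub, mul_one] at h3
    rw [← h3]
    abel
  rw [h2]
  calc ‖Ring.inverse (1 - A) * A ^ (n + 1)‖ ≤ ‖Ring.inverse (1 - A)‖ * ‖A ^ (n + 1)‖ :=
        norm_mul_le _ _
    _ ≤ 1 / (1 - q) * q ^ (n + 1) := by
        refine mul_le_mul hn ?_ (norm_nonneg _) (by
          have : 0 < 1 - q := by linarith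
          positivity)
        exact (norm_pow_le' A (Nat.succ_pos n)).trans (pow_le_pow_left₀ (norm_nonneg _) hA _)
    _ = _ := by ring

theorem lip_norm (A A' : H →L[ℂ] H) (q : ℝ) (hq1 : q < 1) (hA : ‖A‖ ≤ q)
    (hA' : ‖A'‖ ≤ q) : ‖Ring.inverse (1 - A) - Ring.inverse (1 - A')‖ ≤
      ‖A - A'‖ / (1 - q) ^ 2 := by
  obtain ⟨hu, hn⟩ := inv_norm A q hq1 hA
  obtain ⟨hu', hn'⟩ := inv_norm A' q hq1 hA'
  have h1 : Ring.inverse (1 - A) * (1 - A) = 1 := Ring.inverse_mul_cancel _ hu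
  have h2 : (1 - A') * Ring.inverse (1 - A') = 1 := Ring.mul_inverse_cancel _ hu'
  have h3 : Ring.inverse (1 - A) - Ring.inverse (1 - A') =
      Ring.inverse (1 - A) * (A - A') * Ring.inverse (1 - A') := by
    have h4 : A - A' = (1 - A') - (1 - A) := by abel
    rw [h4, mul_sub, sub_mul, h1, one_mul, mul_assoc, h2, mul_one]
  have hpos : 0 < 1 - q := by linarith
  rw [h3]
  calc ‖Ring.inverse (1 - A) * (A - A') * Ring.inverse (1 - A')‖
      ≤ ‖Ring.inverse (1 - A)‖ * ‖A - A'‖ * ‖Ring.inverse (1 - A')‖ :=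
        (norm_mul_le _ _).trans (mul_le_mul_of_nonneg_right (norm_mul_le _ _) (norm_nonneg _))
    _ ≤ 1 / (1 - q) * ‖A - A'‖ * (1 / (1 - q)) := by
        gcongr
    _ = _ := by
        field_simp

theorem pos_re (A : H →L[ℂ] H) (q : ℝ) (hq0 : 0 ≤ q) (hq1 : q < 1) (hA : ‖A‖ ≤ q) (e : H)
    (he : ‖e‖ = 1) : (1 - q ^ 2) / 4 ≤ 2 * (inner ℂ e (Ring.inverse (1 - A) e)).re - 1 := by
  obtain ⟨hu, -⟩ := inv_norm A q hq1 hA
  have h1 : Ring.inverse (1 - A) * (1 - A) = 1 := Ring.inverse_mul_cancel _ hu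
  set Z := Ring.inverse (1 - A) with hZ
  set W : H := ContinuousLinearMap.adjoint Z e with hW
  have hin : inner ℂ e (Z e) = inner ℂ W e := (ContinuousLinearMap.adjoint_inner_left Z e e).symm
  have hWe : W - e = ContinuousLinearMap.adjoint A W := by
    have h2 : ContinuousLinearMap.adjoint (1 - A) * ContinuousLinearMap.adjoint Z = 1 := by
      have h3 := congrArg ContinuousLinearMap.adjoint h1
      have h4 : ContinuousLinearMap.adjoint (Z * (1 - A)) =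
          ContinuousLinearMap.adjoint (1 - A) * ContinuousLinearMap.adjoint Z :=
        ContinuousLinearMap.adjoint_comp Z (1 - A)
      have h5 : ContinuousLinearMap.adjoint (1 : H →L[ℂ] H) = 1 := by
        have : (star (1 : H →L[ℂ] H)) = 1 := star_one _
        exact this
      rw [h4, h5] at h3
      exact h3
    have h6 : ContinuousLinearMap.adjoint (1 - A) = 1 - ContinuousLinearMap.adjoint A := by
      have h5 : ContinuousLinearMap.adjoint (1 : H →L[ℂ] H) = 1 := by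
        have : (star (1 : H →L[ℂ] H)) = 1 := star_one _
        exact this
      rw [map_sub, h5]
    rw [h6] at h2
    have h7 := congrArg (fun T : H →L[ℂ] H => T e) h2
    have h8 : W - ContinuousLinearMap.adjoint A W = e := h7
    rw [← h8]
    abel
  have hAn : ‖ContinuousLinearMap.adjoint A W‖ ≤ q * ‖W‖ := by
    have h2 : ‖ContinuousLinearMap.adjoint A‖ = ‖A‖ :=
      LinearIsometryEquiv.norm_map ContinuousLinearMap.adjoint A
    calc ‖ContinuousLinearMap.adjoint A W‖ ≤ ‖ContinuousLinearMap.adjoint A‖ * ‖W‖ :=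
          ContinuousLinearMap.le_opNorm _ _
      _ ≤ q * ‖W‖ := by
        rw [h2]
        exact mul_le_mul_of_nonneg_right hA (norm_nonneg _)
  have hsq : ‖W - e‖ ^ 2 = ‖W‖ ^ 2 - 2 * (inner ℂ W e).re + ‖e‖ ^ 2 := by
    have := norm_sub_sq (𝕜 := ℂ) W e
    exact this
  rw [he] at hsq
  rw [hin]
  rw [hWe] at hsq
  have hW2 : 1 ≤ 2 * ‖W‖ := by
    have h2 : e = W - ContinuousLinearMap.adjoint A W := by
      rw [← hWe]
      abel
    calc (1 : ℝ) = ‖e‖ := he.symm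
      _ = ‖W - ContinuousLinearMap.adjoint A W‖ := by rw [← h2]
      _ ≤ ‖W‖ + ‖ContinuousLinearMap.adjoint A W‖ := norm_sub_le _ _
      _ ≤ ‖W‖ + q * ‖W‖ := by linarith
      _ ≤ 2 * ‖W‖ := by nlinarith [norm_nonneg W]
  have hA2 : ‖ContinuousLinearMap.adjoint A W‖ ^ 2 ≤ (q * ‖W‖) ^ 2 :=
    pow_le_pow_left₀ (norm_nonneg _) hAn 2
  have hWs : 1 / 4 ≤ ‖W‖ ^ 2 := by nlinarith
  have hq2 : 0 ≤ 1 - q ^ 2 := by nlinarith
  nlinarith

end gen

theorem main : S_OPR → S_DIA → S_ZF := by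
  intro hO hD d m m' c q hq0 hq1 hm hm' hc
  obtain ⟨-, n1, -, -, -⟩ := hO d m m'
  obtain ⟨-, n2, -, -, -⟩ := hO d m' m
  obtain ⟨-, n3⟩ := hD _ c hc
  have bd : ∀ w : C(UnitAddTorus (Fin d), ℂ), ‖w‖ ≤ q → ‖opr w * dia c‖ ≤ q := by
    intro w hw
    obtain ⟨-, n4, -, -, -⟩ := hO d w w
    calc ‖opr w * dia c‖ ≤ ‖opr w‖ * ‖dia c‖ := norm_mul_le _ _
      _ ≤ q * 1 := mul_le_mul (n4.trans hw) n3 (norm_nonneg _) hq0
      _ = q := mul_one q
  have hA := bd m hm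
  have hA' := bd m' hm'
  have hsub : ‖opr m * dia c - opr m' * dia c‖ ≤ ‖m - m'‖ := by
    obtain ⟨-, n5, -, n6, -⟩ := hO d (m - m') m'
    rw [sub_add_cancel] at n6
    have h1 : opr m * dia c - opr m' * dia c = opr (m - m') * dia c := by
      rw [n6, add_mul, add_sub_cancel_right]
    rw [h1]
    calc ‖opr (m - m') * dia c‖ ≤ ‖opr (m - m')‖ * ‖dia c‖ := norm_mul_le _ _
      _ ≤ ‖m - m'‖ * 1 := mul_le_mul n5 n3 (norm_nonneg _) (norm_nonneg _)
      _ = _ := mul_one _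
  set e : l2 (Fin d → ℤ) := lp.single 2 (0 : Fin d → ℤ) (1 : ℂ) with he
  have hen : ‖e‖ = 1 := by
    rw [he, lp.norm_single (by norm_num)]
    simp
  have hev : ∀ T : l2 (Fin d → ℤ) →L[ℂ] l2 (Fin d → ℤ), ‖(T e) 0‖ ≤ ‖T‖ := by
    intro T
    calc ‖(T e) 0‖ ≤ ‖T e‖ := lp.norm_apply_le_norm (by norm_num) _ _
      _ ≤ ‖T‖ * ‖e‖ := T.le_opNorm e
      _ = ‖T‖ := by rw [hen, mul_one]
  refine ⟨(inv_norm _ q hq1 hA).1, ?_, ?_, ?_, ?_⟩
  · exact (hev _).trans (inv_norm _ q hq1 hA).2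
  · have h1 := hev (Ring.inverse (1 - opr m * dia c) - Ring.inverse (1 - opr m' * dia c))
    have h2 := lip_norm _ _ q hq1 hA hA'
    refine (h1.trans h2).trans ?_
    gcongr
  · intro n
    have h1 := hev (Ring.inverse (1 - opr m * dia c) -
      ∑ i ∈ Finset.range (n + 1), (opr m * dia c) ^ i)
    refine le_trans (le_of_eq ?_) (h1.trans (rem_norm _ q hq0 hq1 hA n))
    congr 1
    change _ = (Ring.inverse (1 - opr m * dia c) e) 0 -
      ((∑ i ∈ Finset.range (n + 1), (opr m * dia c) ^ i) e) 0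
    congr 1
    rw [ContinuousLinearMap.sum_apply, lp.coeFn_sum, Finset.sum_apply]
  · have h1 := pos_re _ q hq0 hq1 hA e hen
    have h2 : inner ℂ e (Ring.inverse (1 - opr m * dia c) e) = Zf m c := by
      rw [he, lp.inner_single_left]
      simp [Zf]
    rw [h2] at h1
    exact h1

end Pool.Agent.W762.LL
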